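import Mathlib

/-!
# Orderings of the elliptic curves over `ℚ`

The naive height, the minimal discriminant and the conductor (through the properties of its
exponents) of the quadratic twists `y² = x³ + a D x² + b D² x`.
-/

set_option autoImplicit false

open scoped Classical

namespace Pool.Agent.U79.TF

open WeierstrassCurve

/-- the curve `y² = x³ + A x + B` over `ℚ` -/
def short (A B : ℤ) : WeierstrassCurve ℚ := ⟨0, 0, 0, (A : ℚ), (B : ℚ)⟩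

/-- there is no prime `p` with `p ^ 4 ∣ A` and `p ^ 6 ∣ B` -/
def Minimal (A B : ℤ) : Prop := ∀ p : ℕ, p.Prime → ¬ ((p : ℤ) ^ 4 ∣ A ∧ (p : ℤ) ^ 6 ∣ B)

/-- the naive height of an elliptic curve over `ℚ`: `max (4 |A|³) (27 B²)` for the
model `y² = x³ + A x + B` with integers `A`, `B` and no prime `p` with `p ^ 4 ∣ A` and `p ^ 6 ∣ B` -/
noncomputable def naiveHeight (W : WeierstrassCurve ℚ) : ℕ :=
  sInf {h : ℕ | ∃ (A B : ℤ) (C : VariableChange ℚ), Minimal A B ∧ C • W = short A B ∧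
    h = max (4 * A.natAbs ^ 3) (27 * B.natAbs ^ 2)}

/-- the valuation at `p` of the minimal discriminant: the least valuation of the discriminant of
a Weierstrass equation with coefficients in `ℤ_p` -/
noncomputable def vDisc (p : ℕ) [Fact p.Prime] (W : WeierstrassCurve ℚ) : ℕ :=
  sInf {n : ℕ | ∃ (V : WeierstrassCurve ℤ_[p]) (C : VariableChange ℚ_[p]),
    C • W.map (algebraMap ℚ ℚ_[p]) = V.map (algebraMap ℤ_[p] ℚ_[p]) ∧ n = V.Δ.valuation}

/-- the absolute value of the minimal discriminant -/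
noncomputable def minDisc (W : WeierstrassCurve ℚ) : ℕ :=
  ∏ᶠ p : Nat.Primes, haveI := Fact.mk p.2; (p : ℕ) ^ vDisc (p : ℕ) W

/-- a function with the following properties of the exponent of the conductor: it depends only
on the isomorphism class over `ℚ_p`, it is `0` in the case of good reduction, and `2`
if `p ≥ 5` and the reduction is additive -/
structure IsConductorExponent (f : ∀ (p : ℕ) [Fact p.Prime], WeierstrassCurve ℚ_[p] → ℕ) : Prop where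
  iso : ∀ (p : ℕ) [Fact p.Prime] (W : WeierstrassCurve ℚ_[p]) (C : VariableChange ℚ_[p]),
    f p (C • W) = f p W
  good : ∀ (p : ℕ) [Fact p.Prime] (V : WeierstrassCurve ℤ_[p]), IsUnit V.Δ →
    f p (V.map (algebraMap ℤ_[p] ℚ_[p])) = 0
  additive : ∀ (p : ℕ) [Fact p.Prime], 5 ≤ p → ∀ A B : ℤ_[p], 4 * A ^ 3 + 27 * B ^ 2 ≠ 0 →
    (p : ℤ_[p]) ∣ A → (p : ℤ_[p]) ∣ B → ¬ ((p : ℤ_[p]) ^ 4 ∣ A ∧ (p : ℤ_[p]) ^ 6 ∣ B) →
    f p ⟨0, 0, 0, (A : ℚ_[p]), (B : ℚ_[p])⟩ = 2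

/-- the conductor, given the function of the exponents -/
noncomputable def conductor (f : ∀ (p : ℕ) [Fact p.Prime], WeierstrassCurve ℚ_[p] → ℕ)
    (W : WeierstrassCurve ℚ) : ℕ :=
  ∏ᶠ p : Nat.Primes, haveI := Fact.mk p.2; (p : ℕ) ^ f (p : ℕ) (W.map (algebraMap ℚ ℚ_[(p : ℕ)]))

/-- the three orderings -/
def Ordering (I : WeierstrassCurve ℚ → ℕ) : Prop :=
  I = naiveHeight ∨ I = minDisc ∨ ∃ f : ∀ (p : ℕ) [Fact p.Prime], WeierstrassCurve ℚ_[p] → ℕ,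
    IsConductorExponent f ∧ I = conductor f

/-- `y² = x³ + a D x² + b D² x` -/
def E (a b : ℤ) (D : ℕ) : WeierstrassCurve ℚ := ⟨0, (a : ℚ) * (D : ℚ), 0, (b : ℚ) * (D : ℚ) ^ 2, 0⟩

section height

theorem exists_min : ∀ (n : ℕ) (A B : ℤ), A.natAbs + B.natAbs ≤ n → ¬ (A = 0 ∧ B = 0) →
    ∃ (v : ℕ) (A₁ B₁ : ℤ), v ≠ 0 ∧ A = v ^ 4 * A₁ ∧ B = v ^ 6 * B₁ ∧ Minimal A₁ B₁ := by
  intro n
  induction n with
  | zero =>
    intro A B h h0
    exact absurd ⟨by omega, by omega⟩ h0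
  | succ n ih =>
    intro A B h h0
    by_cases hm : Minimal A B
    · exact ⟨1, A, B, one_ne_zero, by simp, by simp, hm⟩
    · unfold Minimal at hm
      push Not at hm
      obtain ⟨p, hp, ⟨A', hA⟩, ⟨B', hB⟩⟩ := hm
      have h2 := hp.two_le
      have h4 : 2 ≤ p ^ 4 := h2.trans (Nat.le_self_pow (by norm_num) p)
      have h6 : 2 ≤ p ^ 6 := h2.trans (Nat.le_self_pow (by norm_num) p)
      have eA : A.natAbs = p ^ 4 * A'.natAbs := by
        rw [hA, Int.natAbs_mul, Int.natAbs_pow, Int.natAbs_natCast]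
      have eB : B.natAbs = p ^ 6 * B'.natAbs := by
        rw [hB, Int.natAbs_mul, Int.natAbs_pow, Int.natAbs_natCast]
      have h0' : ¬ (A' = 0 ∧ B' = 0) := by
        rintro ⟨rfl, rfl⟩
        exact h0 ⟨by rw [hA, mul_zero], by rw [hB, mul_zero]⟩
      have hlt : A'.natAbs + B'.natAbs ≤ n := by
        have h7 : 0 < A'.natAbs + B'.natAbs := by
          by_contra h8
          exact h0' ⟨by omega, by omega⟩
        have h9 : 2 * A'.natAbs ≤ A.natAbs := by rw [eA]; exact Nat.mul_le_mul_right _ h4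
        have h10 : 2 * B'.natAbs ≤ B.natAbs := by rw [eB]; exact Nat.mul_le_mul_right _ h6
        omega
      obtain ⟨v, A₁, B₁, hv, e1, e2, h5⟩ := ih A' B' hlt h0'
      refine ⟨p * v, A₁, B₁, mul_ne_zero hp.ne_zero hv, ?_, ?_, h5⟩
      · rw [hA, e1]; push_cast; ring
      · rw [hB, e2]; push_cast; ring

/-- isomorphisms of short Weierstrass equations -/
theorem iso_short {A B A' B' : ℤ} {C : VariableChange ℚ} (h : C • short A B = short A' B') :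
    (A : ℚ) = (C.u : ℚ) ^ 4 * A' ∧ (B : ℚ) = (C.u : ℚ) ^ 6 * B' := by
  have hu : (C.u : ℚ) ≠ 0 := C.u.ne_zero
  have e1 := congrArg WeierstrassCurve.a₁ h
  have e2 := congrArg WeierstrassCurve.a₂ h
  have e3 := congrArg WeierstrassCurve.a₃ h
  have e4 := congrArg WeierstrassCurve.a₄ h
  have e6 := congrArg WeierstrassCurve.a₆ h
  simp only [variableChange_a₁, variableChange_a₂, variableChange_a₃, variableChange_a₄,
    variableChange_a₆, short, Units.val_inv_eq_inv_val] at e1 e2 e3 e4 e6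
  have hs : C.s = 0 := by
    rcases mul_eq_zero.1 e1 with h1 | h1
    · exact absurd h1 (inv_ne_zero hu)
    · linarith
  rw [hs] at e2 e4
  have hr : C.r = 0 := by
    rcases mul_eq_zero.1 e2 with h1 | h1
    · exact absurd h1 (pow_ne_zero 2 (inv_ne_zero hu))
    · linarith
  rw [hr] at e3 e4 e6
  have ht : C.t = 0 := by
    rcases mul_eq_zero.1 e3 with h1 | h1
    · exact absurd h1 (pow_ne_zero 3 (inv_ne_zero hu))
    · linarith
  rw [ht] at e4 e6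
  constructor
  · rw [← e4]
    field_simp
    ring
  · rw [← e6]
    field_simp
    ring

theorem min_aux {A B A' B' : ℤ} (hm : Minimal A B) {x y : ℤ} (hxy : IsCoprime x y)
    (h4 : A * y ^ 4 = A' * x ^ 4) (h6 : B * y ^ 6 = B' * x ^ 6) : x.natAbs = 1 := by
  by_contra hx
  obtain ⟨p, hp, hpx⟩ := Nat.exists_prime_and_dvd hx
  have hpx' : (p : ℤ) ∣ x := Int.natCast_dvd.2 hpx
  have hpi : Prime (p : ℤ) := Nat.prime_iff_prime_int.1 hp
  have hcop : IsCoprime (p : ℤ) y := by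
    rw [Prime.coprime_iff_not_dvd hpi]
    intro hy
    obtain ⟨r, s, hrs⟩ := hxy
    apply hpi.not_dvd_one
    rw [← hrs]
    exact dvd_add (hpx'.mul_left _) (hy.mul_left _)
  refine hm p hp ⟨?_, ?_⟩
  · refine (hcop.pow (m := 4) (n := 4)).dvd_of_dvd_mul_right ?_
    rw [h4]
    exact (pow_dvd_pow_of_dvd hpx' 4).mul_left _
  · refine (hcop.pow (m := 6) (n := 6)).dvd_of_dvd_mul_right ?_
    rw [h6]
    exact (pow_dvd_pow_of_dvd hpx' 6).mul_left _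

/-- the minimal short equation is unique -/
theorem min_unique {A B A' B' : ℤ} (hm : Minimal A B) (hm' : Minimal A' B')
    {C : VariableChange ℚ} (h : C • short A B = short A' B') : A = A' ∧ B = B' := by
  obtain ⟨h4, h6⟩ := iso_short h
  set u : ℚ := (C.u : ℚ) with hu
  have hu0 : u ≠ 0 := C.u.ne_zero
  have hd : (u.den : ℚ) ≠ 0 := by exact_mod_cast u.den_ne_zero
  have e : u = (u.num : ℚ) / (u.den : ℚ) := (Rat.num_div_den u).symm
  have k4 : A * (u.den : ℤ) ^ 4 = A' * u.num ^ 4 := by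
    have : (A : ℚ) * (u.den : ℚ) ^ 4 = A' * (u.num : ℚ) ^ 4 := by
      rw [h4]
      nth_rewrite 1 [e]
      field_simp
    exact_mod_cast this
  have k6 : B * (u.den : ℤ) ^ 6 = B' * u.num ^ 6 := by
    have : (B : ℚ) * (u.den : ℚ) ^ 6 = B' * (u.num : ℚ) ^ 6 := by
      rw [h6]
      nth_rewrite 1 [e]
      field_simp
    exact_mod_cast this
  have hcop : IsCoprime u.num (u.den : ℤ) := Rat.isCoprime_num_den u
  have h1 : u.num.natAbs = 1 := min_aux hm hcop k4 k6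
  have h2 : ((u.den : ℤ)).natAbs = 1 := min_aux hm' hcop.symm k4.symm k6.symm
  have h3 : (u.den : ℤ) = 1 := by
    rw [Int.natAbs_natCast] at h2
    exact_mod_cast h2
  have h5 : u.num ^ 2 = 1 := by
    rw [← Int.natAbs_sq, h1]
    norm_num
  have h7 : u.num ^ 4 = 1 := by
    have : u.num ^ 4 = (u.num ^ 2) ^ 2 := by ring
    rw [this, h5, one_pow]
  have h8 : u.num ^ 6 = 1 := by
    have : u.num ^ 6 = (u.num ^ 2) ^ 3 := by ring
    rw [this, h5, one_pow]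
  rw [h3, one_pow, mul_one, h7, mul_one] at k4
  rw [h3, one_pow, mul_one, h8, mul_one] at k6
  exact ⟨k4, k6⟩

theorem naiveHeight_eq {W : WeierstrassCurve ℚ} {A B : ℤ} {C : VariableChange ℚ}
    (hm : Minimal A B) (h : C • W = short A B) :
    naiveHeight W = max (4 * A.natAbs ^ 3) (27 * B.natAbs ^ 2) := by
  unfold naiveHeight
  have e : {h : ℕ | ∃ (A B : ℤ) (C : VariableChange ℚ), Minimal A B ∧ C • W = short A B ∧
      h = max (4 * A.natAbs ^ 3) (27 * B.natAbs ^ 2)} =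
      {max (4 * A.natAbs ^ 3) (27 * B.natAbs ^ 2)} := by
    ext n
    rw [Set.mem_singleton_iff]
    constructor
    · rintro ⟨A', B', C', hm', h', rfl⟩
      have h2 : (C' * C⁻¹) • short A B = short A' B' := by
        rw [mul_smul, ← h, inv_smul_smul, h']
      obtain ⟨rfl, rfl⟩ := min_unique hm hm' h2
      rfl
    · rintro rfl
      exact ⟨A, B, C, hm, h, rfl⟩
  rw [e, csInf_singleton]

/-- the short equation of the twist -/
theorem exists_short (a b : ℤ) (D : ℕ) (hD : D ≠ 0) (v : ℕ) (hv : v ≠ 0) (A₁ B₁ : ℤ)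
    (h4 : 27 * (3 * b - a ^ 2) = v ^ 4 * A₁) (h6 : 27 * (2 * a ^ 3 - 9 * a * b) = v ^ 6 * B₁) :
    ∃ C : VariableChange ℚ, C • E a b D = short (A₁ * D ^ 2) (B₁ * D ^ 3) := by
  have hv' : (v : ℚ) ≠ 0 := by exact_mod_cast hv
  have hu : (v : ℚ) / 3 ≠ 0 := div_ne_zero hv' (by norm_num)
  refine ⟨⟨Units.mk0 ((v : ℚ) / 3) hu, -((a : ℚ) * D) / 3, 0, 0⟩, ?_⟩
  have h4' : (27 : ℚ) * (3 * b - a ^ 2) = v ^ 4 * A₁ := by exact_mod_cast h4
  have h6' : (27 : ℚ) * (2 * a ^ 3 - 9 * a * b) = v ^ 6 * B₁ := by exact_mod_cast h6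
  ext
  · simp [variableChange_a₁, E, short]
  · simp only [variableChange_a₂, E, short]
    ring
  · simp [variableChange_a₃, E, short]
  · simp only [variableChange_a₄, E, short, Units.val_inv_eq_inv_val, Units.val_mk0]
    push_cast
    field_simp
    linear_combination (D : ℚ) ^ 2 * h4'
  · simp only [variableChange_a₆, E, short, Units.val_inv_eq_inv_val, Units.val_mk0]
    push_cast
    field_simp
    linear_combination (D : ℚ) ^ 3 * h6'

/-- the numbers `D` of the families: squarefree and prime to `6 b (a² - 4 b)` -/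
structure Good (a b : ℤ) (D : ℕ) : Prop where
  sqf : Squarefree D
  cop : ∀ p : ℕ, p.Prime → p ∣ D → 5 ≤ p ∧ ¬ (p : ℤ) ∣ b ∧ ¬ (p : ℤ) ∣ a ^ 2 - 4 * b

theorem disc_id (a b : ℤ) : 4 * (27 * (3 * b - a ^ 2)) ^ 3 + 27 * (27 * (2 * a ^ 3 - 9 * a * b)) ^ 2 =
    -(27 ^ 4 * b ^ 2 * (a ^ 2 - 4 * b)) := by ring

theorem Good.not_both {a b : ℤ} {D p : ℕ} (h : Good a b D) (hp : p.Prime) (hpD : p ∣ D) :
    ¬ ((p : ℤ) ∣ 27 * (3 * b - a ^ 2) ∧ (p : ℤ) ∣ 27 * (2 * a ^ 3 - 9 * a * b)) := by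
  rintro ⟨h1, h2⟩
  obtain ⟨h5, hb, hc⟩ := h.cop p hp hpD
  have hpi : Prime (p : ℤ) := Nat.prime_iff_prime_int.1 hp
  have h3 : (p : ℤ) ∣ 27 ^ 4 * b ^ 2 * (a ^ 2 - 4 * b) := by
    rw [← dvd_neg, ← disc_id]
    exact dvd_add ((dvd_pow h1 (by norm_num)).mul_left _) ((dvd_pow h2 (by norm_num)).mul_left _)
  rcases hpi.dvd_or_dvd h3 with h4 | h4
  · rcases hpi.dvd_or_dvd h4 with h4 | h4
    · have h6 : (p : ℤ) ∣ 3 := by
        have e : (27 : ℤ) ^ 4 = 3 ^ 12 := by norm_num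
        rw [e] at h4
        exact hpi.dvd_of_dvd_pow h4
      have := Int.le_of_dvd (by norm_num) h6
      omega
    · exact hb (hpi.dvd_of_dvd_pow h4)
  · exact hc h4

theorem sqf_val {D p : ℕ} (hD : Squarefree D) (hp : p.Prime) (hpD : p ∣ D) :
    ∃ m : ℕ, D = p * m ∧ ¬ p ∣ m := by
  obtain ⟨m, rfl⟩ := hpD
  refine ⟨m, rfl, fun h => ?_⟩
  have := hD p (Nat.mul_dvd_mul_left p h)
  exact hp.one_lt.ne' (Nat.isUnit_iff.1 this)

theorem Good.minimal {a b : ℤ} {D v : ℕ} {A₁ B₁ : ℤ} (h : Good a b D)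
    (h4 : 27 * (3 * b - a ^ 2) = v ^ 4 * A₁) (h6 : 27 * (2 * a ^ 3 - 9 * a * b) = v ^ 6 * B₁)
    (hm : Minimal A₁ B₁) : Minimal (A₁ * D ^ 2) (B₁ * D ^ 3) := by
  rintro p hp ⟨h1, h2⟩
  have hpi : Prime (p : ℤ) := Nat.prime_iff_prime_int.1 hp
  by_cases hpD : p ∣ D
  · obtain ⟨m, hDm, hpm⟩ := sqf_val h.sqf hp hpD
    have hpm' : ¬ (p : ℤ) ∣ (m : ℤ) := fun h => hpm (Int.natCast_dvd_natCast.1 h)
    have hp0 : (p : ℤ) ≠ 0 := by exact_mod_cast hp.ne_zero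
    have k1 : (p : ℤ) ∣ A₁ := by
      rw [hDm] at h1
      push_cast at h1
      have e1 : A₁ * ((p : ℤ) * m) ^ 2 = (p : ℤ) ^ 2 * (A₁ * (m : ℤ) ^ 2) := by ring
      have e2 : (p : ℤ) ^ 4 = (p : ℤ) ^ 2 * (p : ℤ) ^ 2 := by ring
      rw [e1, e2] at h1
      have h3 := (mul_dvd_mul_iff_left (pow_ne_zero 2 hp0)).1 h1
      have h5 : (p : ℤ) ∣ A₁ * (m : ℤ) ^ 2 := (dvd_pow_self _ (by norm_num)).trans h3
      exact (hpi.dvd_or_dvd h5).resolve_right fun h => hpm' (hpi.dvd_of_dvd_pow h)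
    have k2 : (p : ℤ) ∣ B₁ := by
      rw [hDm] at h2
      push_cast at h2
      have e1 : B₁ * ((p : ℤ) * m) ^ 3 = (p : ℤ) ^ 3 * (B₁ * (m : ℤ) ^ 3) := by ring
      have e2 : (p : ℤ) ^ 6 = (p : ℤ) ^ 3 * (p : ℤ) ^ 3 := by ring
      rw [e1, e2] at h2
      have h3 := (mul_dvd_mul_iff_left (pow_ne_zero 3 hp0)).1 h2
      have h5 : (p : ℤ) ∣ B₁ * (m : ℤ) ^ 3 := (dvd_pow_self _ (by norm_num)).trans h3
      exact (hpi.dvd_or_dvd h5).resolve_right fun h => hpm' (hpi.dvd_of_dvd_pow h)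
    refine h.not_both hp hpD ⟨?_, ?_⟩
    · rw [h4]; exact k1.mul_left _
    · rw [h6]; exact k2.mul_left _
  · have hcop : IsCoprime (p : ℤ) (D : ℤ) := by
      rw [Prime.coprime_iff_not_dvd hpi]
      exact fun h => hpD (Int.natCast_dvd_natCast.1 h)
    exact hm p hp ⟨(hcop.pow (m := 4) (n := 2)).dvd_of_dvd_mul_right h1,
      (hcop.pow (m := 6) (n := 3)).dvd_of_dvd_mul_right h2⟩

theorem good_one (a b : ℤ) : Good a b 1 :=
  ⟨squarefree_one, fun p hp h => absurd (Nat.dvd_one.1 h) hp.one_lt.ne'⟩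

/-- data of the short equations of the twists -/
theorem exists_data {a b : ℤ} (hb : b ≠ 0) (hc : a ^ 2 - 4 * b ≠ 0) :
    ∃ A B : ℤ, ¬ (A = 0 ∧ B = 0) ∧ ∀ D : ℕ, Good a b D → Minimal (A * D ^ 2) (B * D ^ 3) ∧
      ∃ C : VariableChange ℚ, C • E a b D = short (A * D ^ 2) (B * D ^ 3) := by
  have h0 : ¬ (27 * (3 * b - a ^ 2) = 0 ∧ 27 * (2 * a ^ 3 - 9 * a * b) = 0) := by
    rintro ⟨h1, h2⟩
    have h3 := disc_id a b
    rw [h1, h2] at h3
    have h4 : (27 : ℤ) ^ 4 * b ^ 2 * (a ^ 2 - 4 * b) = 0 := by linarith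
    rcases mul_eq_zero.1 h4 with h5 | h5
    · rcases mul_eq_zero.1 h5 with h5 | h5
      · norm_num at h5
      · exact hb (pow_eq_zero_iff two_ne_zero |>.1 h5)
    · exact hc h5
  obtain ⟨v, A, B, hv, h4, h6, hm⟩ := exists_min _ _ _ le_rfl h0
  refine ⟨A, B, ?_, fun D hD => ⟨hD.minimal h4 h6 hm, exists_short a b D hD.sqf.ne_zero v hv A B h4 h6⟩⟩
  rintro ⟨rfl, rfl⟩
  exact h0 ⟨by rw [h4, mul_zero], by rw [h6, mul_zero]⟩

/-- the naive height of the twists -/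
theorem height_twist {a b : ℤ} (hb : b ≠ 0) (hc : a ^ 2 - 4 * b ≠ 0) {D : ℕ} (hD : Good a b D) :
    naiveHeight (E a b D) = D ^ 6 * naiveHeight (E a b 1) ∧ 0 < naiveHeight (E a b 1) := by
  obtain ⟨A, B, h0, h⟩ := exists_data hb hc
  obtain ⟨h1, C1, e1⟩ := h D hD
  obtain ⟨h2, C2, e2⟩ := h 1 (good_one a b)
  rw [naiveHeight_eq h1 e1, naiveHeight_eq h2 e2]
  have k1 : (A * (D : ℤ) ^ 2).natAbs = A.natAbs * D ^ 2 := by
    rw [Int.natAbs_mul, Int.natAbs_pow, Int.natAbs_natCast]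
  have k2 : (B * (D : ℤ) ^ 3).natAbs = B.natAbs * D ^ 3 := by
    rw [Int.natAbs_mul, Int.natAbs_pow, Int.natAbs_natCast]
  rw [k1, k2]
  simp only [Nat.cast_one, one_pow, mul_one]
  constructor
  · rw [← Nat.mul_max_mul_left]
    congr 1 <;> ring
  · by_cases hA : A = 0
    · have hB : B ≠ 0 := fun hB => h0 ⟨hA, hB⟩
      have := Int.natAbs_pos.2 hB
      exact lt_max_of_lt_right (by positivity)
    · have := Int.natAbs_pos.2 hA
      exact lt_max_of_lt_left (by positivity)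

/-- different `D` give non-isomorphic curves -/
theorem iso_inj {a b : ℤ} (hb : b ≠ 0) (hc : a ^ 2 - 4 * b ≠ 0) {D D' : ℕ} (hD : Good a b D)
    (hD' : Good a b D') {C : VariableChange ℚ} (hC : C • E a b D = E a b D') : D = D' := by
  obtain ⟨A, B, h0, h⟩ := exists_data hb hc
  obtain ⟨h1, C1, e1⟩ := h D hD
  obtain ⟨h2, C2, e2⟩ := h D' hD'
  have h3 : (C2 * C * C1⁻¹) • short (A * D ^ 2) (B * D ^ 3) = short (A * D' ^ 2) (B * D' ^ 3) := by
    rw [mul_smul, mul_smul, ← e1, inv_smul_smul, hC, e2]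
  obtain ⟨k1, k2⟩ := min_unique h1 h2 h3
  by_cases hA : A = 0
  · have hB : B ≠ 0 := fun hB => h0 ⟨hA, hB⟩
    have h4 : D ^ 3 = D' ^ 3 := by exact_mod_cast mul_left_cancel₀ hB k2
    exact Nat.pow_left_injective (by norm_num : 3 ≠ 0) h4
  · have h4 : D ^ 2 = D' ^ 2 := by exact_mod_cast mul_left_cancel₀ hA k1
    exact Nat.pow_left_injective (by norm_num : 2 ≠ 0) h4

end height

section loc

open Padic

/-- the equation over `ℤ_p` -/
noncomputable def EZ (p : ℕ) [Fact p.Prime] (a b : ℤ) (D : ℕ) : WeierstrassCurve ℤ_[p] :=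
  ⟨0, (a : ℤ_[p]) * (D : ℤ_[p]), 0, (b : ℤ_[p]) * (D : ℤ_[p]) ^ 2, 0⟩

theorem EZ_map (p : ℕ) [Fact p.Prime] (a b : ℤ) (D : ℕ) :
    (EZ p a b D).map (algebraMap ℤ_[p] ℚ_[p]) = (E a b D).map (algebraMap ℚ ℚ_[p]) := by
  ext <;> simp [EZ, E, WeierstrassCurve.map]

theorem EZ_disc (p : ℕ) [Fact p.Prime] (a b : ℤ) (D : ℕ) :
    (EZ p a b D).Δ = ((16 * b ^ 2 * (a ^ 2 - 4 * b) * (D : ℤ) ^ 6 : ℤ) : ℤ_[p]) := by
  simp only [WeierstrassCurve.Δ, WeierstrassCurve.b₂, WeierstrassCurve.b₄, WeierstrassCurve.b₆,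
    WeierstrassCurve.b₈, EZ]
  push_cast
  ring

theorem EZ_unit {p : ℕ} [hp : Fact p.Prime] {a b : ℤ} {D : ℕ} (h2 : p ≠ 2) (hb : ¬ (p : ℤ) ∣ b)
    (hc : ¬ (p : ℤ) ∣ a ^ 2 - 4 * b) (hD : ¬ p ∣ D) : IsUnit (EZ p a b D).Δ := by
  rw [EZ_disc, PadicInt.isUnit_iff, PadicInt.norm_intCast_eq_one_iff]
  have hpi : Prime (p : ℤ) := Nat.prime_iff_prime_int.1 hp.out
  apply IsCoprime.symm
  rw [Prime.coprime_iff_not_dvd hpi]
  intro h
  rcases hpi.dvd_or_dvd h with h | h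
  · rcases hpi.dvd_or_dvd h with h | h
    · rcases hpi.dvd_or_dvd h with h | h
      · have e : (16 : ℤ) = 2 ^ 4 := by norm_num
        rw [e] at h
        have h3 : (p : ℤ) ∣ 2 := hpi.dvd_of_dvd_pow h
        have h4 : p ∣ 2 := by exact_mod_cast h3
        exact h2 ((Nat.prime_dvd_prime_iff_eq hp.out Nat.prime_two).1 h4)
      · exact hb (hpi.dvd_of_dvd_pow h)
    · exact hc h
  · exact hD (Int.natCast_dvd_natCast.1 (hpi.dvd_of_dvd_pow h))

/-- isomorphism over `ℚ_p` for squares `D` -/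
theorem exists_iso {p : ℕ} [hp : Fact p.Prime] (a b : ℤ) {D : ℕ} (hD : D ≠ 0)
    (h : IsSquare (D : ℚ_[p])) : ∃ C : VariableChange ℚ_[p],
      C • (E a b D).map (algebraMap ℚ ℚ_[p]) = (E a b 1).map (algebraMap ℚ ℚ_[p]) := by
  obtain ⟨u, hu⟩ := h
  have hD' : (D : ℚ_[p]) ≠ 0 := by exact_mod_cast hD
  have hu0 : u ≠ 0 := by
    rintro rfl
    rw [mul_zero] at hu
    exact hD' hu
  refine ⟨⟨Units.mk0 u hu0, 0, 0, 0⟩, ?_⟩
  ext
  · simp [variableChange_a₁, E, WeierstrassCurve.map]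
  · simp only [variableChange_a₂, E, WeierstrassCurve.map, Units.val_inv_eq_inv_val, Units.val_mk0]
    push_cast
    rw [hu]
    field_simp
    ring
  · simp [variableChange_a₃, E, WeierstrassCurve.map]
  · simp only [variableChange_a₄, E, WeierstrassCurve.map, Units.val_inv_eq_inv_val, Units.val_mk0]
    push_cast
    rw [hu]
    field_simp
    ring
  · simp [variableChange_a₆, E, WeierstrassCurve.map]

theorem vDisc_congr {p : ℕ} [hp : Fact p.Prime] {W W' : WeierstrassCurve ℚ} {C : VariableChange ℚ_[p]}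
    (h : C • W.map (algebraMap ℚ ℚ_[p]) = W'.map (algebraMap ℚ ℚ_[p])) :
    vDisc p W = vDisc p W' := by
  unfold vDisc
  congr 1
  ext n
  constructor
  · rintro ⟨V, C', h', rfl⟩
    refine ⟨V, C' * C⁻¹, ?_, rfl⟩
    rw [mul_smul, ← h, inv_smul_smul, h']
  · rintro ⟨V, C', h', rfl⟩
    refine ⟨V, C' * C, ?_, rfl⟩
    rw [mul_smul, h, h']

theorem vDisc_good {p : ℕ} [hp : Fact p.Prime] {a b : ℤ} {D : ℕ} (h2 : p ≠ 2) (hb : ¬ (p : ℤ) ∣ b)
    (hc : ¬ (p : ℤ) ∣ a ^ 2 - 4 * b) (hD : ¬ p ∣ D) : vDisc p (E a b D) = 0 := by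
  refine Nat.eq_zero_of_le_zero (Nat.sInf_le ⟨EZ p a b D, 1, ?_, ?_⟩)
  · rw [one_smul, EZ_map]
  · have h := EZ_unit h2 hb hc hD
    obtain ⟨u, hu⟩ := h
    rw [← hu]
    have h1 : ‖(u : ℤ_[p])‖ = 1 := PadicInt.norm_units u
    have h0 : (u : ℤ_[p]) ≠ 0 := u.ne_zero
    rw [PadicInt.norm_eq_zpow_neg_valuation h0] at h1
    have hp1 : (1 : ℝ) < p := by exact_mod_cast hp.out.one_lt
    have h3 := zpow_right_injective₀ (by positivity : (0 : ℝ) < p) hp1.ne'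
      (h1.trans (zpow_zero (p : ℝ)).symm)
    have h4 : ((u : ℤ_[p]).valuation : ℤ) = 0 := by linarith [h3]
    exact_mod_cast h4.symm

theorem EZ_val {p : ℕ} [hp : Fact p.Prime] {a b : ℤ} {D : ℕ} (h : Good a b D) (hpD : p ∣ D) :
    (EZ p a b D).Δ.valuation = 6 ∧ (EZ p a b D).Δ ≠ 0 := by
  obtain ⟨m, hDm, hpm⟩ := sqf_val h.sqf hp.out hpD
  obtain ⟨h5, hb, hc⟩ := h.cop p hp.out hpD
  have hu := EZ_unit (D := m) (by omega) hb hc hpm
  have e : (EZ p a b D).Δ = (p : ℤ_[p]) ^ 6 * (EZ p a b m).Δ := by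
    rw [EZ_disc, EZ_disc, hDm]
    push_cast
    ring
  have h0 : (EZ p a b m).Δ ≠ 0 := hu.ne_zero
  have hp0 : (p : ℤ_[p]) ≠ 0 := by exact_mod_cast hp.out.ne_zero
  refine ⟨?_, ?_⟩
  · rw [e, PadicInt.valuation_p_pow_mul _ _ h0]
    have h1 := PadicInt.isUnit_iff.1 hu
    rw [PadicInt.norm_eq_zpow_neg_valuation h0] at h1
    have hp1 : (1 : ℝ) < p := by exact_mod_cast hp.out.one_lt
    have h3 := zpow_right_injective₀ (by positivity : (0 : ℝ) < p) hp1.ne'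
      (h1.trans (zpow_zero (p : ℝ)).symm)
    have h4 : ((EZ p a b m).Δ.valuation : ℤ) = 0 := by linarith [h3]
    have h5 : (EZ p a b m).Δ.valuation = 0 := by exact_mod_cast h4
    rw [h5]
  · rw [e]
    exact mul_ne_zero (pow_ne_zero 6 hp0) h0

theorem vDisc_six {p : ℕ} [hp : Fact p.Prime] {a b : ℤ} {D : ℕ} (h : Good a b D) (hpD : p ∣ D) :
    vDisc p (E a b D) = 6 := by
  obtain ⟨hv, h0⟩ := EZ_val h hpD
  apply le_antisymm
  · exact Nat.sInf_le ⟨EZ p a b D, 1, by rw [one_smul, EZ_map], hv.symm⟩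
  · refine le_csInf ⟨_, EZ p a b D, 1, by rw [one_smul, EZ_map], rfl⟩ ?_
    rintro n ⟨V, C, hC, rfl⟩
    have e1 := congrArg WeierstrassCurve.Δ hC
    rw [variableChange_Δ, ← EZ_map, WeierstrassCurve.map_Δ, WeierstrassCurve.map_Δ] at e1
    have h0' : ((EZ p a b D).Δ : ℚ_[p]) ≠ 0 := fun h => h0 (Subtype.ext h)
    have hu0 : ((C.u⁻¹ : ℚ_[p]ˣ) : ℚ_[p]) ≠ 0 := (C.u⁻¹).ne_zero
    have e2 : (((C.u⁻¹ : ℚ_[p]ˣ) : ℚ_[p]) ^ 12 * ((EZ p a b D).Δ : ℚ_[p])).valuation =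
        ((V.Δ : ℤ_[p]) : ℚ_[p]).valuation := congrArg Padic.valuation e1
    rw [Padic.valuation_mul (pow_ne_zero 12 hu0) h0', Padic.valuation_pow, PadicInt.valuation_coe,
      PadicInt.valuation_coe, hv] at e2
    push_cast at e2
    omega

theorem pow_aux {p m : ℕ} (hp : p.Prime) (hpm : ¬ p ∣ m) {X Y : ℤ}
    (h1 : (p : ℤ) ^ 4 ∣ X * ((p * m : ℕ) : ℤ) ^ 2) (h2 : (p : ℤ) ^ 6 ∣ Y * ((p * m : ℕ) : ℤ) ^ 3) :
    (p : ℤ) ∣ X ∧ (p : ℤ) ∣ Y := by
  have hpi : Prime (p : ℤ) := Nat.prime_iff_prime_int.1 hp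
  have hpm' : ¬ (p : ℤ) ∣ (m : ℤ) := fun h => hpm (Int.natCast_dvd_natCast.1 h)
  have hp0 : (p : ℤ) ≠ 0 := by exact_mod_cast hp.ne_zero
  constructor
  · push_cast at h1
    have e1 : X * ((p : ℤ) * m) ^ 2 = (p : ℤ) ^ 2 * (X * (m : ℤ) ^ 2) := by ring
    have e2 : (p : ℤ) ^ 4 = (p : ℤ) ^ 2 * (p : ℤ) ^ 2 := by ring
    rw [e1, e2] at h1
    have h3 := (mul_dvd_mul_iff_left (pow_ne_zero 2 hp0)).1 h1
    have h5 : (p : ℤ) ∣ X * (m : ℤ) ^ 2 := (dvd_pow_self _ (by norm_num)).trans h3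
    exact (hpi.dvd_or_dvd h5).resolve_right fun h => hpm' (hpi.dvd_of_dvd_pow h)
  · push_cast at h2
    have e1 : Y * ((p : ℤ) * m) ^ 3 = (p : ℤ) ^ 3 * (Y * (m : ℤ) ^ 3) := by ring
    have e2 : (p : ℤ) ^ 6 = (p : ℤ) ^ 3 * (p : ℤ) ^ 3 := by ring
    rw [e1, e2] at h2
    have h3 := (mul_dvd_mul_iff_left (pow_ne_zero 3 hp0)).1 h2
    have h5 : (p : ℤ) ∣ Y * (m : ℤ) ^ 3 := (dvd_pow_self _ (by norm_num)).trans h3
    exact (hpi.dvd_or_dvd h5).resolve_right fun h => hpm' (hpi.dvd_of_dvd_pow h)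

variable {f : ∀ (p : ℕ) [Fact p.Prime], WeierstrassCurve ℚ_[p] → ℕ}

theorem cond_good (hf : IsConductorExponent f) {p : ℕ} [hp : Fact p.Prime] {a b : ℤ} {D : ℕ}
    (h2 : p ≠ 2) (hb : ¬ (p : ℤ) ∣ b) (hc : ¬ (p : ℤ) ∣ a ^ 2 - 4 * b) (hD : ¬ p ∣ D) :
    f p ((E a b D).map (algebraMap ℚ ℚ_[p])) = 0 := by
  rw [← EZ_map]
  exact hf.good p _ (EZ_unit h2 hb hc hD)

theorem cond_two (hf : IsConductorExponent f) {p : ℕ} [hp : Fact p.Prime] {a b : ℤ} {D : ℕ}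
    (hb0 : b ≠ 0) (hc0 : a ^ 2 - 4 * b ≠ 0) (h : Good a b D) (hpD : p ∣ D) :
    f p ((E a b D).map (algebraMap ℚ ℚ_[p])) = 2 := by
  obtain ⟨m, hDm, hpm⟩ := sqf_val h.sqf hp.out hpD
  obtain ⟨C, hC⟩ := exists_short a b D h.sqf.ne_zero 1 one_ne_zero (27 * (3 * b - a ^ 2))
    (27 * (2 * a ^ 3 - 9 * a * b)) (by norm_num) (by norm_num)
  have e1 : (C.map (algebraMap ℚ ℚ_[p])) • (E a b D).map (algebraMap ℚ ℚ_[p]) =
      (short (27 * (3 * b - a ^ 2) * D ^ 2) (27 * (2 * a ^ 3 - 9 * a * b) * D ^ 3)).map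
        (algebraMap ℚ ℚ_[p]) := by
    rw [WeierstrassCurve.map_variableChange, hC]
  rw [← hf.iso p _ (C.map (algebraMap ℚ ℚ_[p])), e1]
  set A : ℤ := 27 * (3 * b - a ^ 2) * D ^ 2 with hA
  set B : ℤ := 27 * (2 * a ^ 3 - 9 * a * b) * D ^ 3 with hB
  have e2 : (short A B).map (algebraMap ℚ ℚ_[p]) =
      ⟨0, 0, 0, (((A : ℤ) : ℤ_[p]) : ℚ_[p]), (((B : ℤ) : ℤ_[p]) : ℚ_[p])⟩ := by
    ext <;> simp [short, WeierstrassCurve.map]
  have hpD' : (p : ℤ) ∣ (D : ℤ) := Int.natCast_dvd_natCast.2 hpD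
  rw [e2]
  refine hf.additive p (h.cop p hp.out hpD).1 _ _ ?_ ?_ ?_ ?_
  · have e3 : 4 * A ^ 3 + 27 * B ^ 2 = -(27 ^ 4 * b ^ 2 * (a ^ 2 - 4 * b)) * (D : ℤ) ^ 6 := by
      rw [hA, hB]
      ring
    have h3 : 4 * A ^ 3 + 27 * B ^ 2 ≠ 0 := by
      rw [e3]
      refine mul_ne_zero (neg_ne_zero.2 (mul_ne_zero (mul_ne_zero (by norm_num)
        (pow_ne_zero 2 hb0)) hc0)) (pow_ne_zero 6 ?_)
      exact_mod_cast h.sqf.ne_zero
    exact_mod_cast h3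
  · have := (PadicInt.pow_p_dvd_int_iff (p := p) 1 A).2 (by
      rw [pow_one, hA]
      exact (dvd_pow hpD' (by norm_num)).mul_left _)
    rwa [pow_one] at this
  · have := (PadicInt.pow_p_dvd_int_iff (p := p) 1 B).2 (by
      rw [pow_one, hB]
      exact (dvd_pow hpD' (by norm_num)).mul_left _)
    rwa [pow_one] at this
  · rintro ⟨h1, h2⟩
    rw [PadicInt.pow_p_dvd_int_iff, hA, hDm] at h1
    rw [PadicInt.pow_p_dvd_int_iff, hB, hDm] at h2
    exact h.not_both hp.out hpD (pow_aux hp.out hpm h1 h2)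

end loc

section glob

/-- the prime factors -/
def pf (M : ℕ) : Finset Nat.Primes := M.primeFactors.subtype Nat.Prime

theorem mem_pf {M : ℕ} {p : Nat.Primes} : p ∈ pf M ↔ (p : ℕ) ∈ M.primeFactors :=
  Finset.mem_subtype (p := Nat.Prime) (s := M.primeFactors) (a := p)

/-- the product over the primes -/
theorem prod_aux {D m : ℕ} (hD : Squarefree D) {N : ℕ} (hN : N ≠ 0) {g g' : Nat.Primes → ℕ}
    (h0 : ∀ p : Nat.Primes, ¬ (p : ℕ) ∣ N → g p = 0)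
    (h1 : ∀ p : Nat.Primes, g' p = g p + if (p : ℕ) ∣ D then m else 0) :
    ∏ᶠ p : Nat.Primes, (p : ℕ) ^ g' p = D ^ m * ∏ᶠ p : Nat.Primes, (p : ℕ) ^ g p := by
  have hs : ∀ (M : ℕ), M ≠ 0 → ∀ k : Nat.Primes → ℕ, (∀ p : Nat.Primes, ¬ (p : ℕ) ∣ M → k p = 0) →
      Function.mulSupport (fun p : Nat.Primes => (p : ℕ) ^ k p) ⊆ ((pf M : Finset Nat.Primes) :
        Set Nat.Primes) := by
    intro M hM k hk p hp
    rw [Function.mem_mulSupport] at hp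
    rw [Finset.mem_coe, mem_pf]
    refine Nat.mem_primeFactors.2 ⟨p.2, ?_, hM⟩
    by_contra h
    exact hp (by rw [hk p h, pow_zero])
  have e1 : ∀ p : Nat.Primes, (p : ℕ) ^ g' p =
      (p : ℕ) ^ (if (p : ℕ) ∣ D then m else 0) * (p : ℕ) ^ g p := by
    intro p
    rw [h1, pow_add, mul_comm]
  rw [finprod_congr e1]
  have hD0 : D ≠ 0 := hD.ne_zero
  have s1 := hs D hD0 (fun p => if (p : ℕ) ∣ D then m else 0) fun p hp => if_neg hp
  have s2 := hs N hN g h0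
  rw [finprod_mul_distrib ((Finset.finite_toSet _).subset s1) ((Finset.finite_toSet _).subset s2)]
  congr 1
  rw [finprod_eq_prod_of_mulSupport_subset _ s1]
  have e2 : ∀ p ∈ pf D,
      (p : ℕ) ^ (if (p : ℕ) ∣ D then m else 0) = (fun q : ℕ => q ^ m) (p : ℕ) := by
    intro p hp
    rw [mem_pf] at hp
    rw [if_pos (Nat.dvd_of_mem_primeFactors hp)]
  rw [Finset.prod_congr rfl e2]
  have e3 := Finset.prod_subtype_of_mem (s := D.primeFactors) (p := Nat.Prime)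
    (fun q : ℕ => q ^ m) fun q hq => Nat.prime_of_mem_primeFactors hq
  refine Eq.trans e3 ?_
  rw [Finset.prod_pow, Nat.prod_primeFactors_of_squarefree hD]

variable {a b : ℤ} {D : ℕ}

/-- `D` is a square in `ℚ_p` for the bad primes `p` -/
def LocSq (a b : ℤ) (D : ℕ) : Prop := ∀ (p : ℕ) [Fact p.Prime],
  (p = 2 ∨ (p : ℤ) ∣ b * (a ^ 2 - 4 * b)) → IsSquare (D : ℚ_[p])

theorem bad_ne (hb : b ≠ 0) (hc : a ^ 2 - 4 * b ≠ 0) :
    2 * (b * (a ^ 2 - 4 * b)).natAbs ≠ 0 := by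
  have := Int.natAbs_ne_zero.2 (mul_ne_zero hb hc)
  omega

theorem not_bad {p : ℕ} (hp : ¬ p ∣ 2 * (b * (a ^ 2 - 4 * b)).natAbs) :
    p ≠ 2 ∧ ¬ (p : ℤ) ∣ b ∧ ¬ (p : ℤ) ∣ a ^ 2 - 4 * b := by
  refine ⟨?_, ?_, ?_⟩
  · rintro rfl
    exact hp (dvd_mul_right _ _)
  · intro h
    refine hp (Dvd.dvd.mul_left ?_ _)
    exact Int.natCast_dvd.1 (h.mul_right _)
  · intro h
    refine hp (Dvd.dvd.mul_left ?_ _)
    exact Int.natCast_dvd.1 (h.mul_left _)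

theorem bad_of {p : ℕ} (hp : p.Prime) (h : p ∣ 2 * (b * (a ^ 2 - 4 * b)).natAbs) :
    p = 2 ∨ (p : ℤ) ∣ b * (a ^ 2 - 4 * b) := by
  rcases hp.dvd_mul.1 h with h | h
  · exact Or.inl ((Nat.prime_dvd_prime_iff_eq hp Nat.prime_two).1 h)
  · exact Or.inr (Int.natCast_dvd.2 h)

theorem Good.ndvd (h : Good a b D) {p : ℕ} (hp : p.Prime)
    (hb : p = 2 ∨ (p : ℤ) ∣ b * (a ^ 2 - 4 * b)) : ¬ p ∣ D := by
  intro hpD
  obtain ⟨h5, h1, h2⟩ := h.cop p hp hpD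
  rcases hb with rfl | hb
  · omega
  · rcases (Nat.prime_iff_prime_int.1 hp).dvd_or_dvd hb with h | h
    · exact h1 h
    · exact h2 h

theorem minDisc_twist (hb : b ≠ 0) (hc : a ^ 2 - 4 * b ≠ 0) (hD : Good a b D) (hs : LocSq a b D) :
    minDisc (E a b D) = D ^ 6 * minDisc (E a b 1) := by
  unfold minDisc
  refine prod_aux hD.sqf (bad_ne hb hc) (g := fun p => haveI := Fact.mk p.2; vDisc (p : ℕ) (E a b 1))
    (g' := fun p => haveI := Fact.mk p.2; vDisc (p : ℕ) (E a b D)) (fun p hp => ?_) fun p => ?_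
  · haveI := Fact.mk p.2
    obtain ⟨h1, h2, h3⟩ := not_bad hp
    exact vDisc_good h1 h2 h3 p.2.not_dvd_one
  · haveI := Fact.mk p.2
    by_cases hp : (p : ℕ) ∣ 2 * (b * (a ^ 2 - 4 * b)).natAbs
    · have hp' := bad_of p.2 hp
      rw [if_neg (hD.ndvd p.2 hp'), add_zero]
      obtain ⟨C, hC⟩ := exists_iso a b hD.sqf.ne_zero (hs p hp')
      exact vDisc_congr hC
    · obtain ⟨h1, h2, h3⟩ := not_bad hp
      show vDisc (p : ℕ) (E a b D) = vDisc (p : ℕ) (E a b 1) + _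
      rw [vDisc_good h1 h2 h3 p.2.not_dvd_one]
      split_ifs with h
      · rw [vDisc_six hD h]
      · rw [vDisc_good h1 h2 h3 h]

theorem conductor_twist (hb : b ≠ 0) (hc : a ^ 2 - 4 * b ≠ 0) (hD : Good a b D)
    (hs : LocSq a b D) {f : ∀ (p : ℕ) [Fact p.Prime], WeierstrassCurve ℚ_[p] → ℕ}
    (hf : IsConductorExponent f) :
    conductor f (E a b D) = D ^ 2 * conductor f (E a b 1) := by
  unfold conductor
  refine prod_aux hD.sqf (bad_ne hb hc)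
    (g := fun p => haveI := Fact.mk p.2; f (p : ℕ) ((E a b 1).map (algebraMap ℚ ℚ_[(p : ℕ)])))
    (g' := fun p => haveI := Fact.mk p.2; f (p : ℕ) ((E a b D).map (algebraMap ℚ ℚ_[(p : ℕ)])))
    (fun p hp => ?_) fun p => ?_
  · haveI := Fact.mk p.2
    obtain ⟨h1, h2, h3⟩ := not_bad hp
    exact cond_good hf h1 h2 h3 p.2.not_dvd_one
  · haveI := Fact.mk p.2
    by_cases hp : (p : ℕ) ∣ 2 * (b * (a ^ 2 - 4 * b)).natAbs
    · have hp' := bad_of p.2 hp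
      rw [if_neg (hD.ndvd p.2 hp'), add_zero]
      obtain ⟨C, hC⟩ := exists_iso a b hD.sqf.ne_zero (hs p hp')
      show f (p : ℕ) ((E a b D).map (algebraMap ℚ ℚ_[(p : ℕ)])) =
        f (p : ℕ) ((E a b 1).map (algebraMap ℚ ℚ_[(p : ℕ)]))
      rw [← hC, hf.iso]
    · obtain ⟨h1, h2, h3⟩ := not_bad hp
      show f (p : ℕ) ((E a b D).map (algebraMap ℚ ℚ_[(p : ℕ)])) =
        f (p : ℕ) ((E a b 1).map (algebraMap ℚ ℚ_[(p : ℕ)])) + _
      rw [cond_good hf h1 h2 h3 p.2.not_dvd_one]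
      split_ifs with h
      · rw [cond_two hf hb hc hD h]
      · rw [cond_good hf h1 h2 h3 h]

theorem finprod_pos (g : Nat.Primes → ℕ) : 0 < ∏ᶠ p : Nat.Primes, (p : ℕ) ^ g p := by
  refine finprod_induction (fun n => 0 < n) one_pos (fun _ _ => Nat.mul_pos) fun p => ?_
  exact pow_pos p.2.pos _

/-- **the orderings of the family of twists** -/
theorem ordering_twist (hb : b ≠ 0) (hc : a ^ 2 - 4 * b ≠ 0) {I : WeierstrassCurve ℚ → ℕ}
    (hI : Ordering I) : ∃ m : ℕ, m ≠ 0 ∧ 0 < I (E a b 1) ∧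
      ∀ D : ℕ, Good a b D → LocSq a b D → I (E a b D) = D ^ m * I (E a b 1) := by
  rcases hI with rfl | rfl | ⟨f, hf, rfl⟩
  · exact ⟨6, by norm_num, (height_twist hb hc (good_one a b)).2,
      fun D hD _ => (height_twist hb hc hD).1⟩
  · exact ⟨6, by norm_num, finprod_pos _, fun D hD hs => minDisc_twist hb hc hD hs⟩
  · exact ⟨2, by norm_num, finprod_pos _, fun D hD hs => conductor_twist hb hc hD hs hf⟩

end glob

end Pool.Agent.U79.TF
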