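import Pool.Agent.U115.GE.DensK
import Pool.Agent.U796.GE.BND
import Pool.Agent.U739.GE.GOOD
import Pool.Agent.U80.MQ.Rk
import Pool.Agent.U80.NP.Grp
import Pool.Agent.U80.NP.Dual

/-!
# The ranks over multiquadratic fields in families of quadratic twists
-/

set_option autoImplicit false
set_option linter.unusedVariables false

open NumberField WeierstrassCurve Filter Topology

namespace Pool.Agent.U79.TF

open Pool.Agent.TH841.NF.D (rk Sha)
open Pool.Agent.Y682 (gc gc_isT fg_MP MP)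

/-! ### The rank over a multiquadratic field is at most the sum of the ranks of the twists -/

/-- the rank over `F` of the twist by `c` -/
noncomputable def RK (a b : ℤ) (F : Type) [Field F] [NumberField F] (c : ℤ) : ℕ :=
  rk (gc (a * c) (b * c ^ 2) F)

variable {a b : ℤ}

lemma gc_ne (hb : b ≠ 0) (hc : a ^ 2 - 4 * b ≠ 0) {c : ℤ} (h0 : c ≠ 0) :
    b * c ^ 2 ≠ 0 ∧ (a * c) ^ 2 - 4 * (b * c ^ 2) ≠ 0 := by
  have h2 : c ^ 2 ≠ 0 := pow_ne_zero 2 h0
  refine ⟨mul_ne_zero hb h2, ?_⟩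
  have e1 : (a * c) ^ 2 - 4 * (b * c ^ 2) = (a ^ 2 - 4 * b) * c ^ 2 := by ring
  rw [e1]
  exact mul_ne_zero hc h2

lemma RK_iso (hb : b ≠ 0) (hc : a ^ 2 - 4 * b ≠ 0) {K K' : Type} [Field K] [NumberField K]
    [Field K'] [NumberField K'] (e : K ≃+* K') {d : ℤ} (hd : d ≠ 0) : RK a b K d = RK a b K' d :=
  Pool.Agent.Y421.XD.s_rke K K' e _ _ (gc_ne hb hc hd).1 (gc_ne hb hc hd).2

/-- the quadratic formula -/
lemma RK_quad (hb : b ≠ 0) (hc : a ^ 2 - 4 * b ≠ 0) (F F' : IntermediateField ℚ ℂ) [NumberField F]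
    [NumberField F'] {z : ℂ} {d : ℤ} (hd : d ≠ 0) (hz : z ∉ F) (hz2 : z ^ 2 = (d : ℂ))
    (hF' : F' = F ⊔ IntermediateField.adjoin ℚ {z}) {c : ℤ} (h0 : c ≠ 0) :
    RK a b F' c = RK a b F c + RK a b F (c * d) := by
  have hle : F ≤ F' := by rw [hF']; exact le_sup_left
  have hzF' : z ∈ F' := by
    rw [hF']
    exact (le_sup_right : _ ≤ F ⊔ IntermediateField.adjoin ℚ {z})
      (IntermediateField.mem_adjoin_simple_self ℚ z)
  let _ : Algebra F F' := (IntermediateField.inclusion hle).toRingHom.toAlgebra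
  have h3 := Pool.Agent.Y888.XD.s_qf F F' (a * c) (b * c ^ 2) d (⟨z, hzF'⟩ : F')
    (gc_ne hb hc h0).1 (gc_ne hb hc h0).2 hd (Subtype.ext (by
      show z ^ 2 = _
      rw [hz2]
      rfl)) (Pool.Agent.Y51.XD.s_deg2 F F' z d hz hz2 hle hF') (by
      intro x hx
      apply hz
      have h4 := congrArg (fun y : F' => (y : ℂ)) hx
      have h5 : (x : ℂ) = z := h4
      rw [← h5]
      exact x.2)
  unfold RK
  rw [h3]
  congr 2
  · congr 1
    · ring
    · ring

/-- the field generated by the square roots of the elements of `S` -/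
noncomputable def Oms (S : Finset ℤ) : IntermediateField ℚ ℂ :=
  IntermediateField.adjoin ℚ {z : ℂ | ∃ d ∈ S, z ^ 2 = (d : ℂ)}

lemma Oms_empty : Oms ∅ = ⊥ := by
  unfold Oms
  rw [IntermediateField.adjoin_eq_bot_iff]
  rintro z ⟨d, hd, -⟩
  exact absurd hd (Finset.notMem_empty d)

lemma Oms_insert (S : Finset ℤ) (d : ℤ) {z : ℂ} (hz : z ^ 2 = (d : ℂ)) :
    Oms (insert d S) = Oms S ⊔ IntermediateField.adjoin ℚ {z} := by
  apply le_antisymm
  · unfold Oms
    rw [IntermediateField.adjoin_le_iff]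
    rintro w ⟨e, he, hw⟩
    rcases Finset.mem_insert.1 he with rfl | he
    · have h1 : z ∈ IntermediateField.adjoin ℚ {z} := IntermediateField.mem_adjoin_simple_self ℚ z
      have h2 : w ∈ IntermediateField.adjoin ℚ {z} := by
        rcases sq_eq_sq_iff_eq_or_eq_neg.1 (hw.trans hz.symm) with h | h
        · rw [h]; exact h1
        · rw [h]; exact neg_mem h1
      exact (le_sup_right : _ ≤ (IntermediateField.adjoin ℚ {z : ℂ | ∃ d ∈ S, z ^ 2 = (d : ℂ)}) ⊔ _) h2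
    · exact (le_sup_left : (IntermediateField.adjoin ℚ {z : ℂ | ∃ d ∈ S, z ^ 2 = (d : ℂ)}) ≤ _ ⊔
        IntermediateField.adjoin ℚ {z}) (IntermediateField.subset_adjoin ℚ _ ⟨e, he, hw⟩)
  · refine sup_le ?_ ?_
    · unfold Oms
      refine IntermediateField.adjoin.mono ℚ _ _ ?_
      rintro w ⟨e, he, hw⟩
      exact ⟨e, Finset.mem_insert_of_mem he, hw⟩
    · rw [IntermediateField.adjoin_simple_le_iff]
      exact IntermediateField.subset_adjoin ℚ _ ⟨d, Finset.mem_insert_self _ _, hz⟩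

/-- the rank over the multiquadratic field -/
theorem RK_Oms (hb : b ≠ 0) (hc : a ^ 2 - 4 * b ≠ 0) (S : Finset ℤ) :
    (∀ q ∈ S, q ≠ 0) → FiniteDimensional ℚ (Oms S) ∧
    ∀ (F₀ : IntermediateField ℚ ℂ) [NumberField F₀], F₀ = Oms S → ∀ c : ℤ, c ≠ 0 →
      RK a b F₀ c ≤ ∑ T ∈ S.powerset, RK a b ℚ (c * ∏ q ∈ T, q) := by
  classical
  induction S using Finset.induction_on with
  | empty =>
    intro _
    refine ⟨?_, ?_⟩
    · rw [Oms_empty]; infer_instance
    · intro F₀ _ hF₀ c h0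
      rw [Oms_empty] at hF₀
      subst hF₀
      have hq : RK a b ℚ c = RK a b (⊥ : IntermediateField ℚ ℂ) c :=
        RK_iso hb hc (IntermediateField.botEquiv ℚ ℂ).symm.toRingEquiv h0
      rw [← hq]
      simp
  | insert d S hdS ih =>
    intro hS
    obtain ⟨hfd, ih'⟩ := ih (fun e he => hS e (Finset.mem_insert_of_mem he))
    have hd : d ≠ 0 := hS d (Finset.mem_insert_self _ _)
    obtain ⟨z, hz⟩ : ∃ z : ℂ, z ^ 2 = (d : ℂ) := IsAlgClosed.exists_pow_nat_eq _ (by norm_num)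
    have hins := Oms_insert S d hz
    have hG₀ : NumberField (Oms S) := { to_charZero := inferInstance, to_finiteDimensional := hfd }
    by_cases hz0 : z ∈ Oms S
    · have hins' : Oms (insert d S) = Oms S := by
        rw [hins]
        exact sup_eq_left.2 ((IntermediateField.adjoin_simple_le_iff).2 hz0)
      rw [hins']
      refine ⟨hfd, fun F₀ _ hF₀ c h0 => (ih' F₀ hF₀ c h0).trans ?_⟩
      exact Finset.sum_le_sum_of_subset (Finset.powerset_mono.2 (Finset.subset_insert _ _))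
    · refine ⟨?_, ?_⟩
      · rw [hins]
        have : FiniteDimensional ℚ (IntermediateField.adjoin ℚ {z} : IntermediateField ℚ ℂ) :=
          IntermediateField.adjoin.finiteDimensional ⟨Polynomial.X ^ 2 - Polynomial.C (d : ℚ),
            Polynomial.monic_X_pow_sub_C _ (by norm_num), by
              rw [Polynomial.eval₂_sub, Polynomial.eval₂_pow, Polynomial.eval₂_X,
                Polynomial.eval₂_C, hz, map_intCast, sub_self]⟩
        exact IntermediateField.finiteDimensional_sup _ _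
      · intro F₀ _ hF₀ c h0
        rw [RK_quad hb hc (Oms S) F₀ hd hz0 hz (hF₀.trans hins) h0,
          Finset.sum_powerset_insert hdS]
        refine add_le_add (ih' (Oms S) rfl c h0) ((ih' (Oms S) rfl (c * d)
          (mul_ne_zero h0 hd)).trans (le_of_eq ?_))
        refine Finset.sum_congr rfl fun T hT => ?_
        rw [Finset.prod_insert (fun h2 => hdS (Finset.mem_powerset.1 hT h2)), mul_assoc]

/-- the rank over an abstract multiquadratic field -/
theorem RK_field (hb : b ≠ 0) (hc : a ^ 2 - 4 * b ≠ 0) {S : Finset ℤ} (hS : ∀ q ∈ S, q ≠ 0)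
    (K : Type) [Field K] [NumberField K] (r : ℤ → K) (hr : ∀ d ∈ S, r d ^ 2 = (d : K))
    (hK : IntermediateField.adjoin ℚ (r '' (S : Set ℤ)) = ⊤) {c : ℤ} (h0 : c ≠ 0) :
    RK a b K c ≤ ∑ T ∈ S.powerset, RK a b ℚ (c * ∏ q ∈ T, q) := by
  obtain ⟨φ₀⟩ : Nonempty (K →+* ℂ) := inferInstance
  let φ : K →ₐ[ℚ] ℂ := φ₀.toRatAlgHom
  obtain ⟨hfd, h1⟩ := RK_Oms (a := a) (b := b) hb hc S hS
  have hN : NumberField (Oms S) := { to_charZero := inferInstance, to_finiteDimensional := hfd }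
  have hrange : φ.fieldRange = Oms S := by
    have h2 : φ.fieldRange = (⊤ : IntermediateField ℚ K).map φ := (AlgHom.fieldRange_eq_map φ)
    rw [h2, ← hK, IntermediateField.adjoin_map]
    apply le_antisymm
    · unfold Oms
      refine IntermediateField.adjoin.mono ℚ _ _ ?_
      rintro w ⟨x, ⟨d, hd, rfl⟩, rfl⟩
      exact ⟨d, hd, by rw [← map_pow, hr d hd, map_intCast]⟩
    · unfold Oms
      rw [IntermediateField.adjoin_le_iff]
      rintro w ⟨d, hd, hw⟩
      have h3 : φ (r d) ∈ IntermediateField.adjoin ℚ (φ '' (r '' (S : Set ℤ))) :=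
        IntermediateField.subset_adjoin ℚ _ ⟨r d, ⟨d, hd, rfl⟩, rfl⟩
      have h4 : (φ (r d)) ^ 2 = (d : ℂ) := by rw [← map_pow, hr d hd, map_intCast]
      rcases sq_eq_sq_iff_eq_or_eq_neg.1 (hw.trans h4.symm) with h | h
      · rw [h]; exact h3
      · rw [h]; exact neg_mem h3
  have e : K ≃+* Oms S := by
    rw [← hrange]
    exact (AlgEquiv.ofInjectiveField φ).toRingEquiv
  rw [RK_iso hb hc e h0]
  exact h1 (Oms S) rfl c h0

/-! ### The law of the coranks of the twists by divisors over one class -/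

section law

open Finset
open Pool.Agent.U115.GE (Class Res Split Inert spl ine cork thetaG cfg)
open Pool.Agent.U115.GD (ck)
open scoped Classical

variable {m M : ℤ}

theorem bad_dvd (h : m ∣ M) {l : ℤ} (hl : l ∣ b * m ^ 2 * ((a * m) ^ 2 - 4 * (b * m ^ 2))) :
    l ∣ b * M ^ 2 * ((a * M) ^ 2 - 4 * (b * M ^ 2)) := by
  refine hl.trans ?_
  obtain ⟨k, rfl⟩ := h
  exact ⟨k ^ 4, by ring⟩

theorem res_sub (h : m ∣ M) {n : ℕ} (hn : Res (a * M) (b * M ^ 2) n) :
    Res (a * m) (b * m ^ 2) n :=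
  ⟨hn.1, fun l hl h2 hlb => hn.2 l hl h2 (bad_dvd h hlb)⟩

theorem inert_sub (h : m ∣ M) {q : ℕ} (hq : Inert (a * M) (b * M ^ 2) q) :
    Inert (a * m) (b * m ^ 2) q := by
  obtain ⟨h1, h2, h3, h4⟩ := hq
  obtain ⟨k, rfl⟩ := h
  refine ⟨h1, h2, fun h5 => h3 ?_, fun h5 => h4 ?_⟩
  · obtain ⟨t, ht⟩ := h5
    refine ⟨(k : ZMod q) * t, ?_⟩
    push_cast at ht ⊢
    linear_combination (k : ZMod q) ^ 2 * ht
  · obtain ⟨t, ht⟩ := h5
    refine ⟨(k : ZMod q) * t, ?_⟩
    push_cast at ht ⊢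
    linear_combination (k : ZMod q) ^ 2 * ht

theorem class_sub (h : m ∣ M) {D : ℕ} (hD : Class (a * M) (b * M ^ 2) D) :
    Class (a * m) (b * m ^ 2) D :=
  ⟨hD.1, res_sub h hD.2.1, fun p hp => (hD.2.2 p hp).imp (fun hs => ⟨hs.1, res_sub h hs.2⟩)
    (inert_sub h)⟩

theorem res_iff (h : m ∣ M) {D : ℕ} (hD : Class (a * M) (b * M ^ 2) D) {p : ℕ}
    (hp : p ∈ D.primeFactors) : Res (a * m) (b * m ^ 2) p ↔ Res (a * M) (b * M ^ 2) p := by
  refine ⟨fun h1 => ?_, res_sub h⟩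
  rcases hD.2.2 p hp with h2 | h2
  · exact h2.2
  · exfalso
    have := Fact.mk h2.1
    have h3 : Split (a * m) (b * m ^ 2) p := ⟨h2.1, h1⟩
    obtain ⟨h4, -, -, -⟩ := Pool.Agent.U115.GE.split_b h3
    exact (inert_sub h h2).2.2.1 h4

theorem spl_eq (h : m ∣ M) {D : ℕ} (hD : Class (a * M) (b * M ^ 2) D) :
    spl (a * m) (b * m ^ 2) D = spl (a * M) (b * M ^ 2) D :=
  Finset.filter_congr fun _ hp => res_iff h hD hp

theorem ine_eq (h : m ∣ M) {D : ℕ} (hD : Class (a * M) (b * M ^ 2) D) :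
    ine (a * m) (b * m ^ 2) D = ine (a * M) (b * M ^ 2) D :=
  Finset.filter_congr fun _ hp => not_congr (res_iff h hD hp)

theorem cork_matF (a b : ℤ) (D : ℕ) : cork a b D = (spl a b D).card -
    (Pool.Agent.U115.XP.matF (thetaG a b) (ine a b D) (spl a b D)).rank := rfl

theorem sq_cancel {x M : ℤ} (hM : M ≠ 0) (h : IsSquare (x * M ^ 2)) : IsSquare x := by
  obtain ⟨t, ht⟩ := h
  have h1 : M ^ 2 ∣ t ^ 2 := ⟨x, by rw [sq t, ← ht]; ring⟩
  obtain ⟨k, rfl⟩ := (Int.pow_dvd_pow_iff (by norm_num)).1 h1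
  refine ⟨k, mul_right_cancel₀ (pow_ne_zero 2 hM) ?_⟩
  rw [ht]
  ring

/-- **the law of the corank of the twist by `m` over the class for `M`** -/
theorem law_m (nb : ¬ IsSquare b) (nc : ¬ IsSquare (a ^ 2 - 4 * b)) (hM : M ≠ 0) (h : m ∣ M) (k : ℕ) :
    Tendsto (fun X : ℕ =>
      (((Icc 1 X).filter fun D => Class (a * M) (b * M ^ 2) D ∧
        cork (a * m) (b * m ^ 2) D = k).card : ℝ) /
      (((Icc 1 X).filter fun D => Class (a * M) (b * M ^ 2) D).card : ℝ)) atTop (nhds (ck k)) := by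
  have hb : b ≠ 0 := by
    rintro rfl
    exact nb ⟨0, by norm_num⟩
  have hc : a ^ 2 - 4 * b ≠ 0 := by
    intro h
    exact nc ⟨0, by rw [h]; norm_num⟩
  obtain ⟨g1, g2⟩ := gc_ne hb hc hM
  have nb' : ¬ IsSquare (b * M ^ 2) := fun h => nb (sq_cancel hM h)
  have nc' : ¬ IsSquare ((a * M) ^ 2 - 4 * (b * M ^ 2)) := by
    intro h
    refine nc (sq_cancel hM ?_)
    have e : (a ^ 2 - 4 * b) * M ^ 2 = (a * M) ^ 2 - 4 * (b * M ^ 2) := by ring
    rw [e]
    exact h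
  obtain ⟨hok, hres, -, hcl⟩ := Pool.Agent.U643.GE.t_CFG (a * M) (b * M ^ 2) g1 g2 nb' nc'
  have h1 := Pool.Agent.U115.GD.t_DENK (cfg (a * M) (b * M ^ 2)) (thetaG (a * m) (b * m ^ 2)) k hok
  have key : ∀ D : ℕ, Class (a * M) (b * M ^ 2) D →
      (Pool.Agent.U115.GD.GdK (cfg (a * M) (b * M ^ 2)) (thetaG (a * m) (b * m ^ 2)) k
        D.primeFactors ↔ cork (a * m) (b * m ^ 2) D = k) := by
    intro D hD
    rw [Pool.Agent.U115.GE.gdK_matF, cork_matF, spl_eq h hD, ine_eq h hD]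
    have e1 : (D.primeFactors.filter fun p =>
        Pool.Agent.U115.GD.Hc (cfg (a * M) (b * M ^ 2)) p) = spl (a * M) (b * M ^ 2) D :=
      Finset.filter_congr fun p _ => (hres p).symm
    have e2 : (D.primeFactors.filter fun p =>
        ¬ Pool.Agent.U115.GD.Hc (cfg (a * M) (b * M ^ 2)) p) = ine (a * M) (b * M ^ 2) D :=
      Finset.filter_congr fun p _ => not_congr (hres p).symm
    rw [e1, e2]
  refine h1.congr fun X => congrArg₂ (fun a b : ℕ => (a : ℝ) / (b : ℝ)) ?_ ?_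
  · refine congrArg Finset.card (Finset.ext fun D => ?_)
    rw [Finset.mem_filter, Finset.mem_filter]
    refine and_congr_right fun _ => ?_
    rw [← and_assoc, ← hcl]
    exact and_congr_right fun hF => key D hF
  · refine congrArg Finset.card (Finset.ext fun D => ?_)
    rw [Finset.mem_filter, Finset.mem_filter]
    exact and_congr_right fun _ => (hcl D).symm

/-- the law of the corank, cumulative -/
theorem law_le (nb : ¬ IsSquare b) (nc : ¬ IsSquare (a ^ 2 - 4 * b)) (hM : M ≠ 0) (h : m ∣ M)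
    (k : ℕ) : Tendsto (fun X : ℕ =>
      (((Icc 1 X).filter fun D => Class (a * M) (b * M ^ 2) D ∧
        cork (a * m) (b * m ^ 2) D ≤ k).card : ℝ) /
      (((Icc 1 X).filter fun D => Class (a * M) (b * M ^ 2) D).card : ℝ)) atTop
      (nhds (∑ j ∈ range (k + 1), ck j)) := by
  have h := tendsto_finsetSum (Finset.range (k + 1))
    fun j _ => law_m (a := a) (b := b) nb nc hM h j
  refine h.congr fun X => ?_
  rw [← Finset.sum_div]
  congr 1
  rw [← Nat.cast_sum]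
  congr 1
  rw [← Finset.card_biUnion]
  · congr 1
    ext D
    simp only [Finset.mem_biUnion, Finset.mem_range, Finset.mem_filter]
    constructor
    · rintro ⟨j, hj, h1, h2, h3⟩
      exact ⟨h1, h2, by omega⟩
    · rintro ⟨h1, h2, h3⟩
      exact ⟨_, by omega, h1, h2, rfl⟩
  · intro i _ j _ hij
    show Disjoint _ _
    rw [Finset.disjoint_left]
    intro D h1 h2
    rw [Finset.mem_filter] at h1 h2
    exact hij (h1.2.2.symm.trans h2.2.2)

/-- the product of the orders of the Selmer groups -/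
noncomputable def sel2 (a b : ℤ) : ℕ :=
  Pool.Agent.U115.GE.sel a b * Pool.Agent.U115.GE.sel (-2 * a) (a ^ 2 - 4 * b)

theorem sel2_ge (hb : b ≠ 0) (hc : a ^ 2 - 4 * b ≠ 0) : 4 ≤ sel2 a b := by
  obtain ⟨h1, h2⟩ := Pool.Agent.U796.GE.t_BND a b hb hc
  have h3 : 0 < Nat.card {x : Sha (Pool.Agent.Y682.wc (a : ℚ) (b : ℚ)) // 2 • x = 0} :=
    Nat.card_pos_iff.2 ⟨⟨⟨0, smul_zero 2⟩⟩, h1⟩
  have h4 : 0 < 2 ^ rk (Pool.Agent.Y682.wc (a : ℚ) (b : ℚ)) := by positivity
  refine le_trans ?_ h2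
  have h5 : 4 * 1 * 1 ≤ 4 * 2 ^ rk (Pool.Agent.Y682.wc (a : ℚ) (b : ℚ)) *
      Nat.card {x : Sha (Pool.Agent.Y682.wc (a : ℚ) (b : ℚ)) // 2 • x = 0} :=
    Nat.mul_le_mul (Nat.mul_le_mul_left 4 h4) h3
  simpa using h5

/-- the Selmer rank -/
noncomputable def sr (a b : ℤ) : ℕ := Nat.log 2 (sel2 a b) - 2

theorem sel_U80 (a b : ℤ) : Pool.Agent.U80.NP.Sel a b = Pool.Agent.U115.GE.SelSet a b := by
  ext d
  refine and_congr_right fun hd => ?_
  have key : ∀ (K : Type) [Field K] [CharZero K],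
      Pool.Agent.Y695.LocA K (a : K) (b : K) (d : K) ↔ Pool.Agent.U115.GE.Qs K a b d := by
    intro K _ _
    have hd0 : (d : K) ≠ 0 := Int.cast_ne_zero.2 hd.ne_zero
    exact Pool.Agent.U80.NP.locA_iff hd0 (mul_div_cancel₀ _ hd0).symm
  exact and_congr (key ℝ) (forall₂_congr fun p hp => key ℚ_[p])

theorem sel_pow (a : ℤ) {b : ℤ} (hb : b ≠ 0) : ∃ f : ℕ, Pool.Agent.U115.GE.sel a b = 2 ^ f := by
  have h := Pool.Agent.U80.NP.ncard_pow (a := a) hb
  rw [sel_U80] at h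
  exact ⟨_, h⟩

theorem sel2_pow (hb : b ≠ 0) (hc : a ^ 2 - 4 * b ≠ 0) : sel2 a b = 2 ^ (sr a b + 2) := by
  have h4 := sel2_ge hb hc
  obtain ⟨f, hf⟩ := sel_pow a hb
  obtain ⟨f', hf'⟩ := sel_pow (-2 * a) hc
  unfold sr
  unfold sel2 at h4 ⊢
  rw [hf, hf', ← pow_add] at h4 ⊢
  rw [Nat.log_pow (by norm_num)]
  have h2 : 2 ≤ f + f' := by
    by_contra h
    have h5 : 2 ^ (f + f') < 2 ^ 2 := Nat.pow_lt_pow_right (by norm_num) (by omega)
    omega
  rw [Nat.sub_add_cancel h2]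

/-- the bound of the rank -/
theorem rank_le (hb : b ≠ 0) (hc : a ^ 2 - 4 * b ≠ 0) {D : ℕ} (h : Class a b D) :
    rk (Pool.Agent.U115.GE.twE a b D) ≤ sr a b + 2 * cork a b D := by
  have hH := Pool.Agent.U115.GE.class_hg hb hc h
  have hk := Pool.Agent.U115.GE.class_kap hb hc h
  have hD := Pool.Agent.U115.GE.prod_eq (a := a) (b := b) h.1
  obtain ⟨h1, h2⟩ := hH.bound Pool.Agent.U739.GE.t_GOOD Pool.Agent.U796.GE.t_BND hD
  have eS : Pool.Agent.U115.GE.sel a b * Pool.Agent.U115.GE.sel (-2 * a) (a ^ 2 - 4 * b) =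
      sel2 a b := rfl
  rw [hk, eS] at h2
  have hS4 : 4 ≤ sel2 a b := sel2_ge hb hc
  set E := Pool.Agent.U115.GE.twE a b D
  set S := sel2 a b with hS
  have h3 : 0 < Nat.card {x : Sha E // 2 • x = 0} :=
    Nat.card_pos_iff.2 ⟨⟨⟨0, smul_zero 2⟩⟩, h1⟩
  have h4 : 4 * 2 ^ rk E ≤ (2 ^ cork a b D) ^ 2 * S :=
    (Nat.le_mul_of_pos_right _ h3).trans h2
  have h5 : S < 2 ^ (Nat.log 2 S + 1) := Nat.lt_pow_succ_log_self (by norm_num) S
  have h6 : 2 ^ (rk E + 2) < 2 ^ (cork a b D * 2 + (Nat.log 2 S + 1)) := by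
    rw [pow_add, pow_add 2 (cork a b D * 2), pow_mul]
    calc 2 ^ rk E * 2 ^ 2 = 4 * 2 ^ rk E := by ring
      _ ≤ (2 ^ cork a b D) ^ 2 * S := h4
      _ < (2 ^ cork a b D) ^ 2 * 2 ^ (Nat.log 2 S + 1) :=
        Nat.mul_lt_mul_of_pos_left h5 (by positivity)
  have h7 := (Nat.pow_lt_pow_iff_right (by norm_num : 1 < 2)).1 h6
  have h8 : 2 ≤ Nat.log 2 S := by
    have := Nat.log_mono_right (b := 2) hS4
    have h9 : Nat.log 2 4 = 2 := by
      rw [show (4 : ℕ) = 2 ^ 2 by norm_num, Nat.log_pow (by norm_num)]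
    omega
  have h9 : sr a b = Nat.log 2 S - 2 := rfl
  omega

/-- the rank over the multiquadratic field of the twist by `D` -/
theorem rank_K (hb : b ≠ 0) (hc : a ^ 2 - 4 * b ≠ 0) {S : Finset ℤ} (hS : ∀ q ∈ S, q ≠ 0)
    (K : Type) [Field K] [NumberField K] (r : ℤ → K) (hr : ∀ d ∈ S, r d ^ 2 = (d : K))
    (hK : IntermediateField.adjoin ℚ (r '' (S : Set ℤ)) = ⊤) {D : ℕ}
    (hD : Class (a * ∏ q ∈ S, q) (b * (∏ q ∈ S, q) ^ 2) D) :
    RK a b K D ≤ ∑ T ∈ S.powerset, (sr (a * ∏ q ∈ T, q) (b * (∏ q ∈ T, q) ^ 2) +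
      2 * cork (a * ∏ q ∈ T, q) (b * (∏ q ∈ T, q) ^ 2) D) := by
  have hD0 : (D : ℤ) ≠ 0 := by exact_mod_cast hD.1.ne_zero
  refine (RK_field hb hc hS K r hr hK hD0).trans (Finset.sum_le_sum fun T hT => ?_)
  have hT' := Finset.mem_powerset.1 hT
  have hT0 : ∏ q ∈ T, q ≠ 0 := Finset.prod_ne_zero_iff.2 fun q hq => hS q (hT' hq)
  obtain ⟨g1, g2⟩ := gc_ne hb hc hT0
  have h1 := rank_le g1 g2 (class_sub (Finset.prod_dvd_prod_of_subset T S _ hT') hD)
  refine le_trans (le_of_eq ?_) h1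
  unfold RK
  congr 1
  unfold gc Pool.Agent.U115.GE.twE Pool.Agent.Y682.wc
  push_cast
  congr 1 <;> ring

/-- the class is infinite -/
theorem class_many (hb : b ≠ 0) (hc : a ^ 2 - 4 * b ≠ 0) : Tendsto (fun X : ℕ =>
    ((Finset.Icc 1 X).filter fun D => Class a b D).card) atTop atTop := by
  set N : ℕ := 8 * (b * (a ^ 2 - 4 * b)).natAbs with hN
  have hN0 : N ≠ 0 := by
    have := Int.natAbs_ne_zero.2 (mul_ne_zero hb hc)
    omega
  have : NeZero N := ⟨hN0⟩
  have hinf : {p : ℕ | p.Prime ∧ (p : ZMod N) = 1}.Infinite :=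
    Nat.infinite_setOfPred_prime_and_eq_mod (q := N) (a := 1) isUnit_one
  have hcl : ∀ p : ℕ, p.Prime → (p : ZMod N) = 1 → Class a b p := by
    intro p hp h1
    have h2 : p ≡ 1 [MOD N] := by
      rw [← ZMod.natCast_eq_natCast_iff]
      rw [h1, Nat.cast_one]
    have hres : Res a b p := by
      refine ⟨?_, fun l hl _ hlb => ?_⟩
      · have h3 : p ≡ 1 [MOD 8] := h2.of_dvd (by rw [hN]; exact dvd_mul_right _ _)
        exact h3
      · have h3 : p ≡ 1 [MOD l] := h2.of_dvd (by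
          rw [hN]
          exact (Int.natCast_dvd.1 hlb).mul_left _)
        have := Fact.mk hl
        have h4 : (p : ZMod l) = 1 := by
          have := (ZMod.natCast_eq_natCast_iff p 1 l).2 h3
          rwa [Nat.cast_one] at this
        refine ⟨fun h5 => ?_, 1, by rw [h4, one_mul]⟩
        rw [← ZMod.natCast_eq_zero_iff, h4] at h5
        exact one_ne_zero h5
    refine ⟨hp.prime.squarefree, hres, fun q hq => Or.inl ?_⟩
    rw [hp.primeFactors, Finset.mem_singleton] at hq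
    subst hq
    exact ⟨hp, hres⟩
  refine tendsto_atTop.2 fun k => ?_
  obtain ⟨T, hT, hTk⟩ := hinf.exists_subset_card_eq k
  filter_upwards [eventually_ge_atTop (T.sup id)] with X hX
  rw [← hTk]
  refine Finset.card_le_card fun p hp => ?_
  have h1 := hT hp
  rw [Finset.mem_filter, Finset.mem_Icc]
  exact ⟨⟨h1.1.one_le, (Finset.le_sup (f := id) hp).trans hX⟩, hcl p h1.1 h1.2⟩

/-- the union bound -/
theorem union_bound {ι : Type} (I : Finset ι) (C : ℕ → Prop) (Q : ι → ℕ → Prop) {γ : ℝ}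
    (h0 : Tendsto (fun X : ℕ => ((Icc 1 X).filter C).card) atTop atTop)
    (h : ∀ i ∈ I, Tendsto (fun X : ℕ => (((Icc 1 X).filter fun D => C D ∧ Q i D).card : ℝ) /
      (((Icc 1 X).filter C).card : ℝ)) atTop (nhds γ)) (ε : ℝ) (hε : 0 < ε) :
    ∀ᶠ X : ℕ in atTop, 1 - I.card * (1 - γ) - ε ≤
      (((Icc 1 X).filter fun D => C D ∧ ∀ i ∈ I, Q i D).card : ℝ) /
        (((Icc 1 X).filter C).card : ℝ) := by
  have h1 : Tendsto (fun X : ℕ => 1 - ∑ i ∈ I, (1 -
      (((Icc 1 X).filter fun D => C D ∧ Q i D).card : ℝ) / (((Icc 1 X).filter C).card : ℝ))) atTop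
      (nhds (1 - ∑ i ∈ I, (1 - γ))) :=
    tendsto_const_nhds.sub (tendsto_finsetSum I fun i hi => tendsto_const_nhds.sub (h i hi))
  rw [Finset.sum_const, nsmul_eq_mul] at h1
  filter_upwards [h1.eventually (lt_mem_nhds (show 1 - I.card * (1 - γ) - ε <
    1 - I.card * (1 - γ) by linarith)), h0.eventually_ge_atTop 1] with X hX hX1
  refine hX.le.trans ?_
  set A := (Icc 1 X).filter C with hA
  have hA0 : (0 : ℝ) < (A.card : ℝ) := by exact_mod_cast hX1
  have e : ∀ i, (Icc 1 X).filter (fun D => C D ∧ Q i D) = A.filter (Q i) := fun i => by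
    rw [hA, Finset.filter_filter]
  have e' : (Icc 1 X).filter (fun D => C D ∧ ∀ i ∈ I, Q i D) = A.filter fun D => ∀ i ∈ I, Q i D := by
    rw [hA, Finset.filter_filter]
  simp only [e, e']
  have h2 : (A.filter fun D => ¬ ∀ i ∈ I, Q i D) ⊆ I.biUnion fun i => A.filter fun D => ¬ Q i D := by
    intro D hD
    rw [Finset.mem_filter] at hD
    obtain ⟨hD1, hD2⟩ := hD
    push Not at hD2
    obtain ⟨i, hi, hQ⟩ := hD2
    exact Finset.mem_biUnion.2 ⟨i, hi, Finset.mem_filter.2 ⟨hD1, hQ⟩⟩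
  have h3 := (Finset.card_le_card h2).trans Finset.card_biUnion_le
  have h4 : ∀ i, ((A.filter fun D => ¬ Q i D).card : ℝ) = A.card - (A.filter (Q i)).card := by
    intro i
    have := Finset.card_filter_add_card_filter_not (s := A) (Q i)
    rw [← this]
    push_cast
    ring
  have h5 : ((A.filter fun D => ¬ ∀ i ∈ I, Q i D).card : ℝ) =
      A.card - (A.filter fun D => ∀ i ∈ I, Q i D).card := by
    have := Finset.card_filter_add_card_filter_not (s := A) (fun D => ∀ i ∈ I, Q i D)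
    rw [← this]
    push_cast
    ring
  have h6 : ((A.filter fun D => ¬ ∀ i ∈ I, Q i D).card : ℝ) ≤
      ∑ i ∈ I, ((A.filter fun D => ¬ Q i D).card : ℝ) := by exact_mod_cast h3
  rw [h5] at h6
  simp only [h4] at h6
  rw [le_div_iff₀ hA0, sub_mul, one_mul, Finset.sum_mul]
  have h7 : ∀ i ∈ I, (1 - ((A.filter (Q i)).card : ℝ) / A.card) * A.card =
      A.card - (A.filter (Q i)).card := by
    intro i _
    field_simp
  rw [Finset.sum_congr rfl h7]
  linarith

/-- the limit probabilities are small -/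
theorem ck_le (n : ℕ) : ck n ≤ (1 / 2 : ℝ) ^ (∑ i ∈ range n, i) ∧ 0 ≤ ck n := by
  obtain ⟨-, -, -, k1, k2⟩ := Pool.Agent.Y948.CQ.t_C2
  have hp : ∏ i ∈ range n, (2 : ℝ) ^ i ≤ ∏ i ∈ range n, ((2 : ℝ) ^ (i + 1) - 1) := by
    refine Finset.prod_le_prod (fun i _ => by positivity) fun i _ => ?_
    have : (1 : ℝ) ≤ 2 ^ i := one_le_pow₀ (by norm_num)
    rw [pow_succ]
    linarith
  rw [Finset.prod_pow_eq_pow_sum] at hp
  have h0 : (0 : ℝ) < 2 ^ (∑ i ∈ range n, i) := by positivity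
  have h1 : 0 < ∏ i ∈ range n, ((2 : ℝ) ^ (i + 1) - 1) := lt_of_lt_of_le h0 hp
  have k1' : (0.4194 : ℝ) < Pool.Agent.Y703.CQ.c2 := k1
  have k2' : Pool.Agent.Y703.CQ.c2 < 0.4195 := k2
  unfold ck
  constructor
  · rw [div_pow, one_pow]
    exact div_le_div₀ (by norm_num) (by linarith) h0 hp
  · exact div_nonneg (by linarith) h1.le

/-- the tail of the limit law -/
theorem tail_le (k : ℕ) : 1 - ∑ j ∈ range (k + 1), ck j ≤ 2 * (1 / 2 : ℝ) ^ (k * (k + 1) / 2) := by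
  have hs := (hasSum_nat_add_iff (k + 1)).2 (by
    have h := Pool.Agent.U388.GD.t_SUMK
    have e : (1 : ℝ) = (1 - ∑ j ∈ range (k + 1), ck j) + ∑ j ∈ range (k + 1), ck j := by ring
    unfold Pool.Agent.U115.GD.S_SUMK at h
    rw [e] at h
    exact h)
  have hg : HasSum (fun j : ℕ => (1 / 2 : ℝ) ^ (k * (k + 1) / 2) * (1 / 2 : ℝ) ^ j)
      ((1 / 2 : ℝ) ^ (k * (k + 1) / 2) * 2) := by
    have h := (hasSum_geometric_of_lt_one (r := (1 / 2 : ℝ)) (by norm_num) (by norm_num)).mul_left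
      ((1 / 2 : ℝ) ^ (k * (k + 1) / 2))
    norm_num at h ⊢
    exact h
  rw [mul_comm 2]
  refine hasSum_le (fun j => ?_) hs hg
  refine (ck_le (j + (k + 1))).1.trans ?_
  rw [← pow_add]
  refine pow_le_pow_of_le_one (by norm_num) (by norm_num) ?_
  rw [add_comm j, Finset.sum_range_add]
  have h1 : ∑ i ∈ range (k + 1), i = k * (k + 1) / 2 := by
    rw [Finset.sum_range_id, Nat.add_sub_cancel, mul_comm]
  have h2 : j ≤ ∑ i ∈ range j, (k + 1 + i) := by
    calc j = ∑ i ∈ range j, 1 := by simp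
      _ ≤ _ := Finset.sum_le_sum fun i _ => by omega
  omega

end law

section short

theorem rk_smul (K : Type) [Field K] [NumberField K] (W W' : WeierstrassCurve K)
    (C : VariableChange K) (hΔ : W.Δ ≠ 0) (h : C • W = W') : rk W = rk W' := by
  classical
  obtain ⟨⟨e⟩, -⟩ := Pool.Agent.Y655.XT.s_shavc K W W' C hΔ h
  unfold rk
  rw [show Classical.decEq K = (fun a b => Classical.propDecidable (a = b)) from
    Subsingleton.elim _ _]
  exact LinearEquiv.finrank_eq e.toIntLinearEquiv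

/-- the short equation of the twist over `K` -/
def shortK (a b : ℤ) (D : ℕ) (K : Type) [Field K] : WeierstrassCurve K :=
  ⟨0, 0, 0, ((27 * (3 * b - a ^ 2) * D ^ 2 : ℤ) : K), ((27 * (2 * a ^ 3 - 9 * a * b) * D ^ 3 : ℤ) : K)⟩

theorem shortK_iso (a b : ℤ) (D : ℕ) (K : Type) [Field K] [CharZero K] :
    ∃ C : VariableChange K, C • gc (a * D) (b * D ^ 2) K = shortK a b D K := by
  refine ⟨⟨Units.mk0 (1 / 3) (by norm_num), -((a : K) * D) / 3, 0, 0⟩, ?_⟩
  ext
  · simp [variableChange_a₁, gc, shortK]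
  · simp only [variableChange_a₂, gc, shortK]
    push_cast
    ring
  · simp [variableChange_a₃, gc, shortK]
  · simp only [variableChange_a₄, gc, shortK, Units.val_inv_eq_inv_val, Units.val_mk0]
    push_cast
    field_simp
    ring
  · simp only [variableChange_a₆, gc, shortK, Units.val_inv_eq_inv_val, Units.val_mk0]
    push_cast
    field_simp
    ring

theorem gc_disc (A B : ℤ) (K : Type) [Field K] :
    (gc A B K).Δ = ((16 * B ^ 2 * (A ^ 2 - 4 * B) : ℤ) : K) := by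
  simp only [WeierstrassCurve.Δ, WeierstrassCurve.b₂, WeierstrassCurve.b₄, WeierstrassCurve.b₆,
    WeierstrassCurve.b₈, gc]
  push_cast
  ring

theorem rk_short (hb : b ≠ 0) (hc : a ^ 2 - 4 * b ≠ 0) {D : ℕ} (hD : D ≠ 0) (K : Type) [Field K]
    [NumberField K] : rk (shortK a b D K) = RK a b K D := by
  obtain ⟨C, hC⟩ := shortK_iso a b D K
  have hD' : (D : ℤ) ≠ 0 := by exact_mod_cast hD
  obtain ⟨g1, g2⟩ := gc_ne hb hc hD'
  refine (rk_smul K _ _ C ?_ hC).symm
  rw [gc_disc]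
  exact_mod_cast mul_ne_zero (mul_ne_zero (by norm_num) (pow_ne_zero 2 g1)) g2

end short

end Pool.Agent.U79.TF
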